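import Pool.Agent.Y815.TH.LocA
import Pool.Agent.H565R2.FO2.USec

set_option autoImplicit false

/-!
Project TH (helper560), job TH-LOC (helper815), part 2: the theorem on local chains,
`t_LOC : S_OUTT → S_LOC`.
-/

namespace Pool.Agent.Y815.TH

open Set MeasureTheory
open Pool.Agent.H566P (XG Isom)
open Pool.Agent.Y560.TF (TO)
open Pool.Agent.Y560.TH

variable {Γ : Type}

section defs

variable [Group Γ] (e : ℕ → Z Γ)

/-- the order of the points of one chain with one label, oriented -/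
def T (x : XG Γ) (u v : ℕ) : Prop :=
  ch x u v ∧ ∃ i, Lb x u = e i ∧ Lb x v = e i ∧
    ((ori (e i) ∧ x.1 u v = true) ∨ (¬ ori (e i) ∧ x.1 v u = true))

/-- the semilinear order -/
def Fr (x : XG Γ) (u v : ℕ) : Prop :=
  T e x u v ∨ (¬ K0 x u ∧ ¬ K0 x v ∧ x.1 u v = true) ∨
    ∃ g, gate x g v ∧ (u = g ∨ T e x u g)

/-- the predicates -/
def Fp (x : XG Γ) (n u : ℕ) : Prop :=
  (n % 2 = 0 ∧ x.2.2 (n / 2) u = true) ∨ (n % 2 = 1 ∧ K0 x u ∧ Lb x u = e (n / 2))

open Classical in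
/-- the structure with the semilinear order -/
noncomputable def F (x : XG Γ) : XG Γ :=
  (fun u v => decide (Fr e x u v), x.2.1, fun n u => decide (Fp e x n u))

/-- the order of the core, decoded -/
def T' (y : XG Γ) (u v : ℕ) : Prop :=
  (∃ i, y.2.2 (2 * i + 1) u = true ∧ y.2.2 (2 * i + 1) v = true ∧
    ((ori (e i) ∧ y.1 u v = true) ∨ (¬ ori (e i) ∧ y.1 v u = true))) ∨
  ((∀ j, y.2.2 (2 * (2 * j + 1)) u = y.2.2 (2 * (2 * j + 1)) v) ∧
    ∃ i j, y.2.2 (2 * i + 1) u = true ∧ y.2.2 (2 * j + 1) v = true ∧ RL (e i) (e j))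

/-- the order, decoded -/
def Dr (y : XG Γ) (u v : ℕ) : Prop :=
  (K0 y u ∧ K0 y v ∧ T' e y u v) ∨ (¬ K0 y u ∧ ¬ K0 y v ∧ y.1 u v = true) ∨
  (K0 y u ∧ ¬ K0 y v ∧ ∃ g, K0 y g ∧ y.1 g v = true ∧
    (∀ t, K0 y t → y.1 t v = true → t = g ∨ y.1 t g = true) ∧ (u = g ∨ T' e y u g))

open Classical in
/-- the decoding -/
noncomputable def D (y : XG Γ) : XG Γ :=
  (fun u v => decide (Dr e y u v), y.2.1, fun j u => y.2.2 (2 * j) u)

end defs

section basic

variable [Group Γ] {e : ℕ → Z Γ} {x : XG Γ}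

theorem F_1 {u v : ℕ} : (F e x).1 u v = true ↔ Fr e x u v := by
  classical
  exact decide_eq_true_iff

theorem D_1 {u v : ℕ} : (D e x).1 u v = true ↔ Dr e x u v := by
  classical
  exact decide_eq_true_iff

theorem F_0 {n u : ℕ} : (F e x).2.2 n u = true ↔ Fp e x n u := by
  classical
  exact decide_eq_true_iff

theorem F_2 {j u : ℕ} : (F e x).2.2 (2 * j) u = x.2.2 j u := by
  rw [Bool.eq_iff_iff, F_0]
  unfold Fp
  have h1 : 2 * j % 2 = 0 := by omega
  have h2 : 2 * j / 2 = j := by omega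
  rw [h1, h2]
  simp

theorem F_3 {i u : ℕ} : (F e x).2.2 (2 * i + 1) u = true ↔ K0 x u ∧ Lb x u = e i := by
  rw [F_0]
  unfold Fp
  have h1 : (2 * i + 1) % 2 = 1 := by omega
  have h2 : (2 * i + 1) / 2 = i := by omega
  rw [h1, h2]
  simp

theorem F_K {u : ℕ} : K0 (F e x) u ↔ K0 x u := by
  show (F e x).2.2 (2 * 0) u = true ↔ _
  rw [F_2]
  exact Iff.rfl

theorem Fr_c {u v : ℕ} (hv : K0 x v) : Fr e x u v ↔ T e x u v := by
  constructor
  · rintro (h1 | ⟨-, h1, -⟩ | ⟨g, h1, -⟩)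
    · exact h1
    · exact absurd hv h1
    · exact absurd hv h1.2.1
  · exact Or.inl

theorem Fr_oo {u v : ℕ} (hu : ¬ K0 x u) (hv : ¬ K0 x v) : Fr e x u v ↔ x.1 u v = true := by
  constructor
  · rintro (h1 | ⟨-, -, h1⟩ | ⟨g, h1, rfl | h2⟩)
    · exact absurd h1.1.1 hu
    · exact h1
    · exact absurd h1.1 hu
    · exact absurd h2.1.1 hu
  · exact fun h1 => Or.inr (Or.inl ⟨hu, hv, h1⟩)

theorem Fr_co {u v : ℕ} (hu : K0 x u) (hv : ¬ K0 x v) :
    Fr e x u v ↔ ∃ g, gate x g v ∧ (u = g ∨ T e x u g) := by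
  constructor
  · rintro (h1 | ⟨h1, -, -⟩ | h1)
    · exact absurd h1.1.2.1 hv
    · exact absurd hu h1
    · exact h1
  · exact fun h1 => Or.inr (Or.inr h1)

end basic

section lc

variable [Group Γ] {e : ℕ → Z Γ} {x : XG Γ} (h : LC x)

include h

theorem gate_uniq {g g' v : ℕ} (h1 : gate x g v) (h2 : gate x g' v) : g = g' := by
  rcases h1.2.2.2 g' h2.1 h2.2.2.1 with h3 | h3
  · exact h3.symm
  · rcases h2.2.2.2 g h1.1 h1.2.2.1 with h4 | h4
    · exact h4
    · exact (asy h h3 h4).elim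

theorem gate_up {g v w : ℕ} (h1 : gate x g v) (hw : ¬ K0 x w) (h2 : x.1 v w = true) :
    gate x g w := by
  refine ⟨h1.1, hw, h.tr _ _ _ h1.2.2.1 h2, fun t ht h3 => ?_⟩
  rcases h.sem _ _ _ h3 h2 with h4 | h4 | h4
  · exact absurd (h4 ▸ ht) h1.2.1
  · exact h1.2.2.2 t ht h4
  · exact absurd (h.down _ _ h4 ht) h1.2.1

theorem gate_down {g m k : ℕ} (h1 : gate x g k) (hm : ¬ K0 x m) (h2 : x.1 m k = true) :
    gate x g m := by
  refine ⟨h1.1, hm, ?_, fun t ht h3 => h1.2.2.2 t ht (h.tr _ _ _ h3 h2)⟩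
  rcases h.sem _ _ _ h1.2.2.1 h2 with h4 | h4 | h4
  · exact absurd (h4 ▸ h1.1) hm
  · exact h4
  · exact absurd (h.down _ _ h4 h1.1) hm

variable (he : ∀ u, K0 x u → ∃ i, Lb x u = e i)

omit h in
include he in
theorem T_iff {u v : ℕ} : T e x u v ↔ ch x u v ∧ Lb x u = Lb x v ∧
    ((ori (Lb x u) ∧ x.1 u v = true) ∨ (¬ ori (Lb x u) ∧ x.1 v u = true)) := by
  constructor
  · rintro ⟨h1, i, h2, h3, h4⟩
    rw [← h2] at h4
    exact ⟨h1, h2.trans h3.symm, h4⟩
  · rintro ⟨h1, h2, h4⟩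
    obtain ⟨i, hi⟩ := he u h1.1
    rw [hi] at h4
    exact ⟨h1, i, hi, h2.symm.trans hi, h4⟩

include he

theorem T_ne {u v : ℕ} (h1 : T e x u v) : u ≠ v := by
  rcases ((T_iff he).1 h1).2.2 with ⟨-, c⟩ | ⟨-, c⟩
  · exact ne_of h c
  · exact (ne_of h c).symm

theorem T_tr {u v w : ℕ} (h1 : T e x u v) (h2 : T e x v w) : T e x u w := by
  rw [T_iff he] at *
  obtain ⟨a1, a2, a3⟩ := h1
  obtain ⟨b1, b2, b3⟩ := h2
  rw [← a2] at b3
  refine ⟨ch_trans a1 b1, a2.trans b2, ?_⟩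
  rcases a3 with ⟨c1, c2⟩ | ⟨c1, c2⟩ <;> rcases b3 with ⟨d1, d2⟩ | ⟨d1, d2⟩
  · exact Or.inl ⟨c1, h.tr _ _ _ c2 d2⟩
  · exact absurd c1 d1
  · exact absurd d1 c1
  · exact Or.inr ⟨c1, h.tr _ _ _ d2 c2⟩

theorem T_asy {u v : ℕ} (h1 : T e x u v) (h2 : T e x v u) : False :=
  T_ne h he (T_tr h he h1 h2) rfl

theorem T_lin {m n k : ℕ} (h1 : T e x m k) (h2 : T e x n k) :
    m = n ∨ T e x m n ∨ T e x n m := by
  rw [T_iff he] at h1 h2
  rw [T_iff he, T_iff he]
  have hc : ch x m n := ch_trans h1.1 (ch_symm h2.1)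
  have hl : Lb x m = Lb x n := h1.2.1.trans h2.2.1.symm
  by_cases hmn : m = n
  · exact Or.inl hmn
  right
  rw [← hl]
  rcases cmp h hc hmn with h5 | h5
  · by_cases ho : ori (Lb x m)
    · exact Or.inl ⟨hc, rfl, Or.inl ⟨ho, h5⟩⟩
    · exact Or.inr ⟨ch_symm hc, rfl, Or.inr ⟨ho, h5⟩⟩
  · by_cases ho : ori (Lb x m)
    · exact Or.inr ⟨ch_symm hc, rfl, Or.inl ⟨ho, h5⟩⟩
    · exact Or.inl ⟨hc, rfl, Or.inr ⟨ho, h5⟩⟩

theorem T_act (γ : Γ) {u v : ℕ} (h1 : T e x u v) : T e x (x.2.1 γ u) (x.2.1 γ v) := by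
  have hne := T_ne h he h1
  rw [T_iff he] at *
  obtain ⟨a1, a2, a3⟩ := h1
  have ht : tp x u := by
    rcases a3 with ⟨_, c⟩ | ⟨_, c⟩
    · exact ⟨u, v, ch_refl a1.1, a1, c⟩
    · exact ⟨v, u, a1, ch_refl a1.1, c⟩
  have hb : ¬ bad (Lb x u) := fun hb => hne (bad_uniq h hb a1.2.1 a2)
  refine ⟨h.chact γ _ _ a1, eq_act h a2 γ, ?_⟩
  by_cases hn : an x γ u
  · rw [ori_anti h ht hb hn]
    rcases a3 with ⟨c1, c2⟩ | ⟨c1, c2⟩
    · exact Or.inr ⟨not_not.2 c1, (an_iff h (ch_refl a1.1) a1 c2).1 hn⟩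
    · exact Or.inl ⟨c1, (an_iff h a1 (ch_refl a1.1) c2).1 hn⟩
  · rw [ori_mono h ht hn]
    rcases a3 with ⟨c1, c2⟩ | ⟨c1, c2⟩
    · exact Or.inl ⟨c1, an_not h (ch_refl a1.1) a1 c2 hn⟩
    · exact Or.inr ⟨c1, an_not h a1 (ch_refl a1.1) c2 hn⟩

theorem F_TO : TO (F e x) := by
  refine ⟨?_, ?_, ?_, h.one, h.mul, ?_⟩
  · intro m
    rw [← Bool.not_eq_true, F_1]
    rintro (h1 | ⟨-, -, h1⟩ | ⟨g, h1, h2⟩)
    · exact T_ne h he h1 rfl
    · exact ne_of h h1 rfl
    · rcases h2 with rfl | h2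
      · exact h1.2.1 h1.1
      · exact h1.2.1 h2.1.1
  · intro u v w h1 h2
    rw [F_1] at *
    rcases h1 with h1 | ⟨a1, a2, a3⟩ | ⟨g, h1, a1⟩
    · rcases h2 with h2 | ⟨b1, -, -⟩ | ⟨g, h2, b1⟩
      · exact Or.inl (T_tr h he h1 h2)
      · exact absurd h1.1.2.1 b1
      · refine Or.inr (Or.inr ⟨g, h2, Or.inr ?_⟩)
        rcases b1 with rfl | b1
        · exact h1
        · exact T_tr h he h1 b1
    · rcases h2 with h2 | ⟨-, b2, b3⟩ | ⟨g, h2, b1⟩
      · exact absurd h2.1.1 a2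
      · exact Or.inr (Or.inl ⟨a1, b2, h.tr _ _ _ a3 b3⟩)
      · rcases b1 with rfl | b1
        · exact absurd h2.1 a2
        · exact absurd b1.1.1 a2
    · rcases h2 with h2 | ⟨-, b2, b3⟩ | ⟨g', h2, b1⟩
      · exact absurd h2.1.1 h1.2.1
      · exact Or.inr (Or.inr ⟨g, gate_up h h1 b2 b3, a1⟩)
      · rcases b1 with rfl | b1
        · exact absurd h2.1 h1.2.1
        · exact absurd b1.1.1 h1.2.1
  · intro m n k h1 h2
    rw [F_1] at h1 h2
    rw [F_1, F_1]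
    rcases h1 with h1 | ⟨a1, a2, a3⟩ | ⟨g, h1, a1⟩
    · rcases h2 with h2 | ⟨-, b2, -⟩ | ⟨g, h2, -⟩
      · rcases T_lin h he h1 h2 with h3 | h3 | h3
        · exact Or.inl h3
        · exact Or.inr (Or.inl (Or.inl h3))
        · exact Or.inr (Or.inr (Or.inl h3))
      · exact absurd h1.1.2.1 b2
      · exact absurd h1.1.2.1 h2.2.1
    · rcases h2 with h2 | ⟨b1, -, b3⟩ | ⟨g, h2, b1⟩
      · exact absurd h2.1.2.1 a2
      · rcases h.sem _ _ _ a3 b3 with h3 | h3 | h3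
        · exact Or.inl h3
        · exact Or.inr (Or.inl (Or.inr (Or.inl ⟨a1, b1, h3⟩)))
        · exact Or.inr (Or.inr (Or.inr (Or.inl ⟨b1, a1, h3⟩)))
      · exact Or.inr (Or.inr (Or.inr (Or.inr ⟨g, gate_down h h2 a1 a3, b1⟩)))
    · rcases h2 with h2 | ⟨b1, b2, b3⟩ | ⟨g', h2, b1⟩
      · exact absurd h2.1.2.1 h1.2.1
      · exact Or.inr (Or.inl (Or.inr (Or.inr ⟨g, gate_down h h1 b1 b3, a1⟩)))
      · have e1 := gate_uniq h h1 h2
        subst e1
        rcases a1 with a1 | a1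
        · rcases b1 with b1 | b1
          · exact Or.inl (a1.trans b1.symm)
          · subst a1
            exact Or.inr (Or.inr (Or.inl b1))
        · rcases b1 with b1 | b1
          · subst b1
            exact Or.inr (Or.inl (Or.inl a1))
          · rcases T_lin h he a1 b1 with h3 | h3 | h3
            · exact Or.inl h3
            · exact Or.inr (Or.inl (Or.inl h3))
            · exact Or.inr (Or.inr (Or.inl h3))
  · intro γ m n h1
    rw [F_1] at *
    rcases h1 with h1 | ⟨a1, a2, a3⟩ | ⟨g, h1, a1⟩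
    · exact Or.inl (T_act h he γ h1)
    · exact Or.inr (Or.inl ⟨fun k => a1 (core' h k), fun k => a2 (core' h k),
        h.out γ _ _ a1 a2 a3⟩)
    · refine Or.inr (Or.inr ⟨_, h.gact γ _ _ h1, ?_⟩)
      rcases a1 with rfl | a1
      · exact Or.inl rfl
      · exact Or.inr (T_act h he γ a1)

theorem T'_iff {u v : ℕ} (hu : K0 x u) (hv : K0 x v) :
    T' e (F e x) u v ↔ x.1 u v = true := by
  have hcc : ∀ a b, K0 x b → ((F e x).1 a b = true ↔ T e x a b) := fun a b hb => by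
    rw [F_1]
    exact Fr_c hb
  by_cases hl : Lb x u = Lb x v
  · constructor
    · rintro (⟨i, h1, h2, h3⟩ | ⟨h1, i, j, h2, h3, h4⟩)
      · rw [F_3] at h1 h2
        rw [hcc _ _ hv, hcc _ _ hu] at h3
        rcases h3 with ⟨h3, h4⟩ | ⟨h3, h4⟩
        · rw [T_iff he, h1.2] at h4
          rcases h4.2.2 with ⟨_, h5⟩ | ⟨h5, _⟩
          · exact h5
          · exact absurd h3 h5
        · rw [T_iff he, h2.2] at h4
          rcases h4.2.2 with ⟨h5, _⟩ | ⟨_, h5⟩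
          · exact absurd h5 h3
          · exact h5
      · rw [F_3] at h2 h3
        exact absurd (h2.2.symm.trans (hl.trans h3.2)) h4.1
    · intro h1
      have hc : ch x u v := (h.chain u v hu hv (ne_of h h1)).2 (Or.inl h1)
      obtain ⟨i, hi⟩ := he u hu
      refine Or.inl ⟨i, F_3.2 ⟨hu, hi⟩, F_3.2 ⟨hv, hl.symm.trans hi⟩, ?_⟩
      rw [hcc _ _ hv, hcc _ _ hu, T_iff he, T_iff he, ← hl, hi]
      by_cases ho : ori (e i)
      · exact Or.inl ⟨ho, hc, rfl, Or.inl ⟨ho, h1⟩⟩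
      · exact Or.inr ⟨ho, ch_symm hc, rfl, Or.inr ⟨ho, h1⟩⟩
  · constructor
    · rintro (⟨i, h1, h2, h3⟩ | ⟨h1, i, j, h2, h3, h4⟩)
      · rw [F_3] at h1 h2
        exact absurd (h1.2.trans h2.2.symm) hl
      · rw [F_3] at h2 h3
        have hc : ch x u v := ⟨hu, hv, fun j => by
          have h5 := h1 j
          rwa [F_2, F_2] at h5⟩
        rw [← h2.2, ← h3.2] at h4
        exact (rl_iff h hc hl).1 h4
    · intro h1
      have hc : ch x u v := (h.chain u v hu hv (ne_of h h1)).2 (Or.inl h1)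
      obtain ⟨i, hi⟩ := he u hu
      obtain ⟨j, hj⟩ := he v hv
      refine Or.inr ⟨fun k => by rw [F_2, F_2]; exact hc.2.2 k, i, j, F_3.2 ⟨hu, hi⟩,
        F_3.2 ⟨hv, hj⟩, ?_⟩
      rw [← hi, ← hj]
      exact (rl_iff h hc hl).2 h1

theorem D_F : D e (F e x) = x := by
  refine Prod.ext ?_ (Prod.ext rfl ?_)
  · funext u v
    rw [Bool.eq_iff_iff, D_1]
    constructor
    · rintro (⟨h1, h2, h3⟩ | ⟨h1, h2, h3⟩ | ⟨h1, h2, g, h3, h4, h5, h6⟩)
      · rw [F_K] at h1 h2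
        exact (T'_iff h he h1 h2).1 h3
      · rw [F_K] at h1 h2
        rwa [F_1, Fr_oo h1 h2] at h3
      · rw [F_K] at h1 h2 h3
        rw [F_1, Fr_co h3 h2] at h4
        obtain ⟨g', k1, k2⟩ := h4
        have k3 : g = g' := by
          rcases k2 with k2 | k2
          · exact k2
          · rcases h5 g' (F_K.2 k1.1) (F_1.2 (Or.inr (Or.inr ⟨g', k1, Or.inl rfl⟩))) with k4 | k4
            · exact k4.symm
            · rw [F_1, Fr_c h3] at k4
              exact (T_asy h he k2 k4).elim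
        subst k3
        rcases h6 with rfl | h6
        · exact k1.2.2.1
        · exact h.tr _ _ _ ((T'_iff h he h1 h3).1 h6) k1.2.2.1
    · intro h1
      by_cases hu : K0 x u
      · by_cases hv : K0 x v
        · exact Or.inl ⟨F_K.2 hu, F_K.2 hv, (T'_iff h he hu hv).2 h1⟩
        · obtain ⟨g, hg⟩ := h.gex u v hu hv h1
          refine Or.inr (Or.inr ⟨F_K.2 hu, fun k => hv (F_K.1 k), g, F_K.2 hg.1,
            F_1.2 (Or.inr (Or.inr ⟨g, hg, Or.inl rfl⟩)), ?_, ?_⟩)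
          · intro t ht h2
            rw [F_K] at ht
            rw [F_1, Fr_co ht hv] at h2
            obtain ⟨g', k1, k2⟩ := h2
            have k3 := gate_uniq h k1 hg
            subst k3
            rcases k2 with k2 | k2
            · exact Or.inl k2
            · exact Or.inr (F_1.2 (Or.inl k2))
          · rcases hg.2.2.2 u hu h1 with k | k
            · exact Or.inl k
            · exact Or.inr ((T'_iff h he hu hg.1).2 k)
      · have hv : ¬ K0 x v := fun hv => hu (h.down u v h1 hv)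
        exact Or.inr (Or.inl ⟨fun k => hu (F_K.1 k), fun k => hv (F_K.1 k),
          F_1.2 ((Fr_oo hu hv).2 h1)⟩)
  · funext j u
    exact F_2

end lc

/-! ### Equivariance -/

section equiv

theorem act_rel (σ : Equiv.Perm ℕ) (x : XG Γ) (γ : Γ) (v : ℕ) :
    σ ((rel σ x).2.1 γ v) = x.2.1 γ (σ v) := σ.apply_symm_apply _

theorem ex_rel (σ : Equiv.Perm ℕ) {p q : ℕ → Prop} (h : ∀ c, p c ↔ q (σ c)) :
    (∃ c, p c) ↔ ∃ c, q c := by
  constructor
  · rintro ⟨c, hc⟩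
    exact ⟨_, (h c).1 hc⟩
  · rintro ⟨c, hc⟩
    obtain ⟨c, rfl⟩ := σ.surjective c
    exact ⟨c, (h c).2 hc⟩

theorem all_rel (σ : Equiv.Perm ℕ) {p q : ℕ → Prop} (h : ∀ c, p c ↔ q (σ c)) :
    (∀ c, p c) ↔ ∀ c, q c := by
  constructor
  · intro k c
    obtain ⟨c, rfl⟩ := σ.surjective c
    exact (h c).1 (k c)
  · intro k c
    exact (h c).2 (k _)

theorem an_rel (σ : Equiv.Perm ℕ) (x : XG Γ) (γ : Γ) (u : ℕ) :
    an (rel σ x) γ u ↔ an x γ (σ u) := by
  refine ex_rel σ fun a => ex_rel σ fun b =>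
    and_congr Iff.rfl (and_congr Iff.rfl (and_congr Iff.rfl ?_))
  show x.1 (σ ((rel σ x).2.1 γ b)) (σ ((rel σ x).2.1 γ a)) = true ↔ _
  rw [act_rel, act_rel]

theorem cd_rel (σ : Equiv.Perm ℕ) (x : XG Γ) (γ : Γ) (a b : ℕ) :
    cd (rel σ x) γ a b = cd x γ (σ a) (σ b) := by
  have h1 := an_rel σ x γ a
  have h2 : (rel σ x).1 a b = x.1 (σ a) (σ b) := rfl
  have h3 : a = b ↔ σ a = σ b := σ.apply_eq_iff_eq.symm
  unfold cd
  by_cases k1 : an x γ (σ a) ∧ ch x (σ a) (σ b)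
  · rw [if_pos k1, if_pos ⟨h1.2 k1.1, k1.2⟩, h2]
    by_cases k2 : a = b
    · rw [if_pos k2, if_pos (h3.1 k2)]
    · rw [if_neg k2, if_neg (fun k => k2 (h3.2 k))]
  · rw [if_neg k1, if_neg (fun k => k1 ⟨h1.1 k.1, k.2⟩)]

variable [Group Γ]

theorem Lb_rel (σ : Equiv.Perm ℕ) (x : XG Γ) (u : ℕ) : Lb (rel σ x) u = Lb x (σ u) := by
  funext p
  obtain ⟨γ, δ⟩ := p
  refine Prod.ext ?_ (Prod.ext ?_ ?_)
  · funext i
    show x.2.2 (2 * i + 1) (σ ((rel σ x).2.1 γ u)) = x.2.2 (2 * i + 1) (x.2.1 γ (σ u))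
    rw [act_rel]
  · show cd (rel σ x) (δ * γ⁻¹) ((rel σ x).2.1 γ u) ((rel σ x).2.1 δ u) =
      cd x (δ * γ⁻¹) (x.2.1 γ (σ u)) (x.2.1 δ (σ u))
    rw [cd_rel, act_rel, act_rel]
  · rw [Bool.eq_iff_iff, lb_3, lb_3, an_rel, act_rel]

theorem T_rel (e : ℕ → Z Γ) (σ : Equiv.Perm ℕ) (x : XG Γ) (u v : ℕ) :
    T e (rel σ x) u v ↔ T e x (σ u) (σ v) := by
  unfold T
  rw [Lb_rel, Lb_rel]
  exact Iff.rfl

omit [Group Γ] in
theorem gate_rel (σ : Equiv.Perm ℕ) (x : XG Γ) (g v : ℕ) :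
    gate (rel σ x) g v ↔ gate x (σ g) (σ v) :=
  and_congr Iff.rfl (and_congr Iff.rfl (and_congr Iff.rfl (all_rel σ fun _ =>
    imp_congr Iff.rfl (imp_congr Iff.rfl (or_congr σ.apply_eq_iff_eq.symm Iff.rfl)))))

theorem Fr_rel (e : ℕ → Z Γ) (σ : Equiv.Perm ℕ) (x : XG Γ) (u v : ℕ) :
    Fr e (rel σ x) u v ↔ Fr e x (σ u) (σ v) :=
  or_congr (T_rel e σ x u v) (or_congr Iff.rfl (ex_rel σ fun g =>
    and_congr (gate_rel σ x g v) (or_congr σ.apply_eq_iff_eq.symm (T_rel e σ x u g))))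

theorem Fp_rel (e : ℕ → Z Γ) (σ : Equiv.Perm ℕ) (x : XG Γ) (n u : ℕ) :
    Fp e (rel σ x) n u ↔ Fp e x n (σ u) := by
  unfold Fp
  rw [Lb_rel]
  exact Iff.rfl

theorem F_rel (e : ℕ → Z Γ) (σ : Equiv.Perm ℕ) (x : XG Γ) :
    F e (rel σ x) = rel σ (F e x) := by
  refine Prod.ext ?_ (Prod.ext rfl ?_)
  · funext a b
    rw [Bool.eq_iff_iff, F_1]
    show _ ↔ (F e x).1 (σ a) (σ b) = true
    rw [F_1, Fr_rel]
  · funext n a
    rw [Bool.eq_iff_iff, F_0]
    show _ ↔ (F e x).2.2 n (σ a) = true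
    rw [F_0, Fp_rel]

theorem Dr_rel (e : ℕ → Z Γ) (σ : Equiv.Perm ℕ) (y : XG Γ) (u v : ℕ) :
    Dr e (rel σ y) u v ↔ Dr e y (σ u) (σ v) :=
  or_congr Iff.rfl (or_congr Iff.rfl (and_congr Iff.rfl (and_congr Iff.rfl
    (ex_rel σ fun _ => and_congr Iff.rfl (and_congr Iff.rfl (and_congr (all_rel σ fun _ =>
      imp_congr Iff.rfl (imp_congr Iff.rfl (or_congr σ.apply_eq_iff_eq.symm Iff.rfl)))
      (or_congr σ.apply_eq_iff_eq.symm Iff.rfl)))))))

theorem D_rel (e : ℕ → Z Γ) (σ : Equiv.Perm ℕ) (y : XG Γ) :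
    D e (rel σ y) = rel σ (D e y) := by
  refine Prod.ext ?_ rfl
  funext a b
  rw [Bool.eq_iff_iff, D_1]
  show _ ↔ (D e y).1 (σ a) (σ b) = true
  rw [D_1, Dr_rel]

end equiv

/-! ### Measurability -/

section meas

/-- replace terms by values -/
theorem m_subst {Ω : Type} [MeasurableSpace Ω] (t : Ω → ℕ) (ht : ∀ n, Measurable fun ω => t ω = n)
    (p : ℕ → Ω → Prop) (hp : ∀ n, Measurable (p n)) : Measurable fun ω => p (t ω) ω := by
  have e : (fun ω => p (t ω) ω) = fun ω => ∃ n, t ω = n ∧ p n ω := by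
    funext ω
    exact propext ⟨fun h => ⟨_, rfl, h⟩, fun ⟨n, h1, h2⟩ => h1 ▸ h2⟩
  rw [e]
  exact Measurable.exists fun n => (ht n).and (hp n)

theorem m_bool {Ω : Type} [MeasurableSpace Ω] {f : Ω → Bool}
    (h : Measurable fun ω => f ω = true) : Measurable f := by
  refine measurable_to_bool ?_
  exact measurableSet_setOfPred.2 h

theorem m_ch (u v : ℕ) : Measurable fun x : XG Γ => ch x u v :=
  (m_3 0 u).and ((m_3 0 v).and (Measurable.forall fun i =>
    measurableSet_setOfPred.1 (measurableSet_eq_fun (c_3 (2 * i + 1) u) (c_3 (2 * i + 1) v))))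

theorem m_gate (g v : ℕ) : Measurable fun x : XG Γ => gate x g v :=
  (m_3 0 g).and ((m_3 0 v).not.and ((m_1 g v).and (Measurable.forall fun t =>
    (m_3 0 t).imp ((m_1 t v).imp (measurable_const.or (m_1 t g))))))

theorem m_an (γ : Γ) (u : ℕ) : Measurable fun x : XG Γ => an x γ u :=
  Measurable.exists fun v => Measurable.exists fun w =>
    (m_ch u v).and ((m_ch u w).and ((m_1 v w).and
      (m_subst (fun x : XG Γ => x.2.1 γ w) (m_2 γ w) (fun a x => x.1 a (x.2.1 γ v) = true)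
        fun a => m_subst (fun x : XG Γ => x.2.1 γ v) (m_2 γ v) (fun b x => x.1 a b = true)
          fun b => m_1 a b)))

theorem m_cd (γ : Γ) (a b n : ℕ) : Measurable fun x : XG Γ => cd x γ a b = n := by
  classical
  have h1 : Measurable fun x : XG Γ => cd x γ a b := by
    unfold cd
    refine Measurable.ite (measurableSet_setOfPred.2 ((m_an γ a).and (m_ch a b)))
      (Measurable.ite (measurableSet_setOfPred.2 (m_1 a b)) measurable_const
        measurable_const) measurable_const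
  exact measurableSet_setOfPred.1 (h1 (measurableSet_singleton n))

variable [Group Γ]

theorem m_Lb (u : ℕ) : Measurable fun x : XG Γ => Lb x u := by
  refine measurable_pi_iff.2 fun p => ?_
  obtain ⟨γ, δ⟩ := p
  refine Measurable.prodMk ?_ (Measurable.prodMk ?_ ?_)
  · refine measurable_pi_iff.2 fun i => m_bool ?_
    exact m_subst (fun x : XG Γ => x.2.1 γ u) (m_2 γ u) (fun a x => x.2.2 (2 * i + 1) a = true)
      fun a => m_3 (2 * i + 1) a
  · refine measurable_to_countable' fun n => ?_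
    refine measurableSet_setOfPred.2 ?_
    exact m_subst (fun x : XG Γ => x.2.1 γ u) (m_2 γ u)
      (fun a x => cd x (δ * γ⁻¹) a (x.2.1 δ u) = n) fun a =>
        m_subst (fun x : XG Γ => x.2.1 δ u) (m_2 δ u)
          (fun b x => cd x (δ * γ⁻¹) a b = n) fun b => m_cd (δ * γ⁻¹) a b n
  · exact m_dec (m_subst (fun x : XG Γ => x.2.1 γ u) (m_2 γ u)
      (fun a x => an x (δ * γ⁻¹) a) fun a => m_an (δ * γ⁻¹) a)

variable [Countable Γ] (e : ℕ → Z Γ)

theorem m_Le (u i : ℕ) : Measurable fun x : XG Γ => Lb x u = e i :=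
  measurableSet_setOfPred.1 (m_Lb u (measurableSet_singleton (e i)))

theorem m_T (u v : ℕ) : Measurable fun x : XG Γ => T e x u v :=
  (m_ch u v).and (Measurable.exists fun i => (m_Le e u i).and ((m_Le e v i).and
    ((measurable_const.and (m_1 u v)).or (measurable_const.and (m_1 v u)))))

theorem m_Fr (u v : ℕ) : Measurable fun x : XG Γ => Fr e x u v :=
  (m_T e u v).or (((m_3 0 u).not.and ((m_3 0 v).not.and (m_1 u v))).or
    (Measurable.exists fun g => (m_gate g v).and (measurable_const.or (m_T e u g))))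

theorem m_Fp (n u : ℕ) : Measurable fun x : XG Γ => Fp e x n u :=
  (measurable_const.and (m_3 (n / 2) u)).or
    (measurable_const.and ((m_3 0 u).and (m_Le e u (n / 2))))

theorem m_F : Measurable (F e : XG Γ → XG Γ) := by
  refine Measurable.prodMk ?_ (Measurable.prodMk (measurable_fst.comp measurable_snd) ?_)
  · exact measurable_pi_iff.2 fun u => measurable_pi_iff.2 fun v => m_dec (m_Fr e u v)
  · exact measurable_pi_iff.2 fun n => measurable_pi_iff.2 fun u => m_dec (m_Fp e n u)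

omit [Countable Γ] in
theorem m_T' (u v : ℕ) : Measurable fun x : XG Γ => T' e x u v :=
  (Measurable.exists fun i => (m_3 (2 * i + 1) u).and ((m_3 (2 * i + 1) v).and
    ((measurable_const.and (m_1 u v)).or (measurable_const.and (m_1 v u))))).or
  ((Measurable.forall fun j => measurableSet_setOfPred.1
    (measurableSet_eq_fun (c_3 (2 * (2 * j + 1)) u) (c_3 (2 * (2 * j + 1)) v))).and
    (Measurable.exists fun i => Measurable.exists fun j => (m_3 (2 * i + 1) u).and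
      ((m_3 (2 * j + 1) v).and measurable_const)))

omit [Countable Γ] in
theorem m_Dr (u v : ℕ) : Measurable fun x : XG Γ => Dr e x u v :=
  ((m_3 0 u).and ((m_3 0 v).and (m_T' e u v))).or
    (((m_3 0 u).not.and ((m_3 0 v).not.and (m_1 u v))).or
    ((m_3 0 u).and ((m_3 0 v).not.and (Measurable.exists fun g =>
      (m_3 0 g).and ((m_1 g v).and ((Measurable.forall fun t =>
        (m_3 0 t).imp ((m_1 t v).imp (measurable_const.or (m_1 t g)))).and
          (measurable_const.or (m_T' e u g))))))))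

omit [Countable Γ] in
theorem m_D : Measurable (D e : XG Γ → XG Γ) := by
  refine Measurable.prodMk ?_ (Measurable.prodMk (measurable_fst.comp measurable_snd) ?_)
  · exact measurable_pi_iff.2 fun u => measurable_pi_iff.2 fun v => m_dec (m_Dr e u v)
  · exact measurable_pi_iff.2 fun j => measurable_pi_iff.2 fun u => c_3 (2 * j) u

end meas

/-! ### The theorem -/

theorem t_LOC (hT : S_OUTT) : S_LOC := by
  intro Γ _ _ B hB hBL hinv
  classical
  have hbs : BorelSpace (XG Γ) := bsG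
  have hz0 : BorelSpace ((ℕ → Bool) × ℕ × Bool) := inferInstance
  have hz1 : SecondCountableTopology ((ℕ → Bool) × ℕ × Bool) := inferInstance
  have hz : BorelSpace (Z Γ) := Pi.borelSpace
  have hSB : StandardBorelSpace (XG Γ) := inferInstance
  have hS : StandardBorelSpace B := hB.standardBorel
  let dz : Z Γ := fun _ => (fun _ => false, 0, false)
  let J : ℕ → B → Z Γ := fun i x => if K0 x.1 i then Lb x.1 i else dz
  have hJ : ∀ i, Measurable (J i) := fun i => by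
    refine Measurable.ite ?_ ((m_Lb i).comp measurable_subtype_coe) measurable_const
    exact measurable_subtype_coe (measurableSet_setOfPred.2 (m_3 0 i))
  by_cases hunc : (⋃ i, Set.range (J i)).Countable
  swap
  · right
    obtain ⟨k, hk1, hk2⟩ := Pool.Agent.H565R2.FO2.perfect_of_uncountable (Y := B) (X := XG Γ)
      (fun x => x.1) measurable_subtype_coe J hJ
      (fun x y => ∃ σ : Equiv.Perm ℕ, Isom σ x.1 y.1) (by
        rintro x y ⟨σ, hσ⟩ i
        refine ⟨σ i, ?_⟩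
        have e1 : x.1 = rel σ y.1 := iso_eq hσ
        show (if K0 x.1 i then Lb x.1 i else dz) = (if K0 y.1 (σ i) then Lb y.1 (σ i) else dz)
        rw [e1, Lb_rel]
        rfl) hunc
    refine ⟨fun A => (k A).1, hk1, fun A => (k A).2, fun A A' hAA => ?_⟩
    by_contra hne
    exact hk2 A A' hne hAA
  · obtain ⟨e, he⟩ : ∃ e : ℕ → Z Γ, insert dz (⋃ i, Set.range (J i)) = Set.range e :=
      (hunc.insert dz).exists_eq_range ⟨dz, mem_insert _ _⟩
    have hlab : ∀ x ∈ B, ∀ u, K0 x u → ∃ i, Lb x u = e i := by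
      intro x hx u hu
      have h1 : Lb x u ∈ insert dz (⋃ i, Set.range (J i)) := by
        refine mem_insert_of_mem _ (mem_iUnion.2 ⟨u, ⟨x, hx⟩, ?_⟩)
        exact if_pos hu
      rw [he] at h1
      obtain ⟨i, hi⟩ := h1
      exact ⟨i, hi.symm⟩
    let A : Set (XG Γ) := {y | D e y ∈ B ∧ y = F e (D e y)}
    have hA : MeasurableSet A :=
      (m_D e hB).inter (measurableSet_eq_fun measurable_id ((m_F e).comp (m_D e)))
    have hAT : ∀ y ∈ A, TO y := by
      rintro y ⟨h1, h2⟩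
      rw [h2]
      exact F_TO (hBL _ h1) (hlab _ h1)
    have hAi : ∀ y ∈ A, ∀ (z : XG Γ) (σ : Equiv.Perm ℕ), Isom σ y z → z ∈ A := by
      rintro y ⟨h1, h2⟩ z σ hσ
      have e1 : z = rel σ.symm y := iso_eq (iso_symm hσ)
      have e2 : D e z = rel σ.symm (D e y) := by rw [e1, D_rel]
      refine ⟨?_, ?_⟩
      · rw [e2]
        exact hinv _ h1 _ _ (iso_symm (rel_iso σ.symm _))
      · rw [e2, F_rel, ← h2]
        exact e1
    have hF : ∀ x ∈ B, F e x ∈ A ∧ D e (F e x) = x := by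
      intro x hx
      have e1 := D_F (hBL x hx) (hlab x hx)
      refine ⟨⟨?_, ?_⟩, e1⟩
      · rw [e1]
        exact hx
      · rw [e1]
    refine transfer (EX := fun y z : XG Γ => ∃ σ : Equiv.Perm ℕ, Isom σ y z)
      (EY := fun x z : XG Γ => ∃ σ : Equiv.Perm ℕ, Isom σ x z)
      (fun y z ⟨σ, h⟩ => ⟨_, iso_symm h⟩) (fun y z w ⟨σ, h⟩ ⟨τ, h'⟩ => ⟨_, iso_trans h h'⟩)
      (fun y z w ⟨σ, h⟩ ⟨τ, h'⟩ => ⟨_, iso_trans h h'⟩) (D e) (m_D e) A B
      (fun y hy => hy.1) ?_ ?_ ?_ analytic_iso (hT Γ A hA hAT hAi)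
    · intro x hx
      refine ⟨F e x, (hF x hx).1, 1, ?_⟩
      rw [(hF x hx).2]
      exact ⟨fun _ _ => rfl, fun _ _ => rfl, fun _ _ => rfl⟩
    · rintro y z - ⟨σ, hσ⟩
      refine ⟨σ, ?_⟩
      rw [iso_eq hσ, D_rel]
      exact rel_iso σ _
    · rintro y ⟨h1, h2⟩
      refine ⟨{y}, Set.countable_singleton y, ?_⟩
      rintro z ⟨h3, h4⟩ ⟨σ, hσ⟩
      refine ⟨y, rfl, σ, ?_⟩
      have e3 : D e y = rel σ (D e z) := iso_eq hσ
      rw [h2, e3, F_rel, ← h4]
      exact rel_iso σ z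

end Pool.Agent.Y815.TH
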