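import Pool.Agent.Y560.TH.Cst3

set_option autoImplicit false

/-!
Project TH (helper560), job TH-LOC (helper815), part 1: labels and orientations of local chains.
-/

namespace Pool.Agent.Y815.TH

open Set MeasureTheory
open Pool.Agent.H566P (XG Isom)
open Pool.Agent.Y560.TF (TO)
open Pool.Agent.Y560.TH

variable {Γ : Type}

/-- `γ` reverses the chain of `u` -/
def an (x : XG Γ) (γ : Γ) (u : ℕ) : Prop :=
  ∃ v w, ch x u v ∧ ch x u w ∧ x.1 v w = true ∧ x.1 (x.2.1 γ w) (x.2.1 γ v) = true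

open Classical in
/-- the position of `b` with respect to `a`, if `γ` reverses the chain of `a` and `b` is in it -/
noncomputable def cd (x : XG Γ) (γ : Γ) (a b : ℕ) : ℕ :=
  if an x γ a ∧ ch x a b then (if x.1 a b = true then 1 else if a = b then 2 else 3) else 0

/-- the labels -/
abbrev Z (Γ : Type) : Type := Γ × Γ → (ℕ → Bool) × ℕ × Bool

/-- the chain of `u` has at least two points -/
def tp (x : XG Γ) (u : ℕ) : Prop := ∃ a b, ch x u a ∧ ch x u b ∧ x.1 a b = true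

theorem ch_symm {x : XG Γ} {u v : ℕ} (h : ch x u v) : ch x v u :=
  ⟨h.2.1, h.1, fun i => (h.2.2 i).symm⟩

theorem ch_trans {x : XG Γ} {u v w : ℕ} (h : ch x u v) (h' : ch x v w) : ch x u w :=
  ⟨h.1, h'.2.1, fun i => (h.2.2 i).trans (h'.2.2 i)⟩

theorem ch_refl {x : XG Γ} {u : ℕ} (h : K0 x u) : ch x u u := ⟨h, h, fun _ => rfl⟩

theorem an_congr {x : XG Γ} {γ : Γ} {u v : ℕ} (h : ch x u v) : an x γ u ↔ an x γ v := by
  constructor
  · rintro ⟨a, b, h1, h2, h3⟩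
    exact ⟨a, b, ch_trans (ch_symm h) h1, ch_trans (ch_symm h) h2, h3⟩
  · rintro ⟨a, b, h1, h2, h3⟩
    exact ⟨a, b, ch_trans h h1, ch_trans h h2, h3⟩

theorem an_core {x : XG Γ} {γ : Γ} {u : ℕ} (h : an x γ u) : K0 x u := by
  obtain ⟨_, _, h1, _⟩ := h
  exact h1.1

theorem cd_0 {x : XG Γ} {η : Γ} {a b : ℕ} (h : ¬ (an x η a ∧ ch x a b)) : cd x η a b = 0 :=
  if_neg h

theorem cd_1 {x : XG Γ} {η : Γ} {a b : ℕ} (h1 : an x η a) (h2 : ch x a b)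
    (h3 : x.1 a b = true) : cd x η a b = 1 := by
  unfold cd
  rw [if_pos ⟨h1, h2⟩, if_pos h3]

theorem cd_pos {x : XG Γ} {η : Γ} {a b : ℕ} (h1 : an x η a) (h2 : ch x a b) :
    1 ≤ cd x η a b := by
  unfold cd
  rw [if_pos ⟨h1, h2⟩]
  split_ifs <;> norm_num

theorem cd_le {x : XG Γ} {η : Γ} {a b : ℕ} : cd x η a b ≤ 3 := by
  unfold cd
  split_ifs <;> norm_num

theorem cd_eq2 {x : XG Γ} {η : Γ} {a b : ℕ} (h : cd x η a b = 2) :
    an x η a ∧ ch x a b ∧ a = b := by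
  unfold cd at h
  split_ifs at h with h1 h2 h3
  all_goals first | exact ⟨h1.1, h1.2, h3⟩ | omega

section act

variable [Group Γ]

open Classical in
/-- the label of a point -/
noncomputable def Lb (x : XG Γ) (u : ℕ) : Z Γ := fun p =>
  (fun i => x.2.2 (2 * i + 1) (x.2.1 p.1 u), cd x (p.2 * p.1⁻¹) (x.2.1 p.1 u) (x.2.1 p.2 u),
    decide (an x (p.2 * p.1⁻¹) (x.2.1 p.1 u)))

/-- the action on the labels -/
def ta (ζ : Γ) (l : Z Γ) : Z Γ := fun p => l (p.1 * ζ, p.2 * ζ)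

/-- the order of the labels -/
def RL (l m : Z Γ) : Prop := l ≠ m ∧ ∀ γ δ : Γ,
  ((l (1, γ)).2.2 = true → (m (γ, δ)).2.1 ≤ (l (γ, δ)).2.1) ∧
  ((l (1, γ)).2.2 = false → (l (γ, δ)).2.1 ≤ (m (γ, δ)).2.1)

/-- labels of fixed points of reversing elements -/
def bad (l : Z Γ) : Prop := ∃ η, (l (1, η)).2.1 = 2

/-- the orbit of a label -/
def ob (l : Z Γ) : Set (Z Γ) := {m | ∃ ζ : Γ, m = ta ζ l}

open Classical in
/-- choice -/
noncomputable def pk (S : Set (Z Γ)) : Z Γ :=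
  if h : S.Nonempty then h.some else fun _ => (fun _ => false, 0, false)

/-- the representative of the orbit of a label -/
noncomputable def rep (l : Z Γ) : Z Γ := pk (ob l)

/-- the orientation of a label -/
def ori (l : Z Γ) : Prop := ∃ δ : Γ, l = ta δ (rep l) ∧ (rep l (1, δ)).2.2 = false

theorem ta_ta (ζ ξ : Γ) (l : Z Γ) : ta ζ (ta ξ l) = ta (ζ * ξ) l := by
  funext p
  show l (p.1 * ζ * ξ, p.2 * ζ * ξ) = l (p.1 * (ζ * ξ), p.2 * (ζ * ξ))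
  rw [mul_assoc, mul_assoc]

theorem ta_one (l : Z Γ) : ta 1 l = l := by
  funext p
  show l (p.1 * 1, p.2 * 1) = l p
  rw [mul_one, mul_one]

theorem ob_ta (ζ : Γ) (l : Z Γ) : ob (ta ζ l) = ob l := by
  ext m
  constructor
  · rintro ⟨ξ, rfl⟩
    exact ⟨ξ * ζ, ta_ta _ _ _⟩
  · rintro ⟨ξ, rfl⟩
    refine ⟨ξ * ζ⁻¹, ?_⟩
    rw [ta_ta, inv_mul_cancel_right]

theorem rep_ta (ζ : Γ) (l : Z Γ) : rep (ta ζ l) = rep l := by
  unfold rep
  rw [ob_ta]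

theorem rep_mem (l : Z Γ) : ∃ ε : Γ, rep l = ta ε l := by
  have h : (ob l).Nonempty := ⟨l, 1, (ta_one l).symm⟩
  have h1 : rep l = h.some := by
    unfold rep pk
    rw [dif_pos h]
  rw [h1]
  exact h.some_mem

theorem lb_3 {x : XG Γ} {u : ℕ} {γ δ : Γ} :
    (Lb x u (γ, δ)).2.2 = true ↔ an x (δ * γ⁻¹) (x.2.1 γ u) := by
  classical
  exact decide_eq_true_iff

section lc

variable {x : XG Γ} (h : LC x)

include h

theorem ii (γ : Γ) (u : ℕ) : x.2.1 γ⁻¹ (x.2.1 γ u) = u := by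
  rw [← h.mul, inv_mul_cancel, h.one]

theorem inj {γ : Γ} {u v : ℕ} (e : x.2.1 γ u = x.2.1 γ v) : u = v := by
  rw [← ii h γ u, e, ii h]

theorem core' {γ : Γ} {u : ℕ} (hk : K0 x (x.2.1 γ u)) : K0 x u := by
  have h1 := h.core γ⁻¹ _ hk
  rwa [ii h] at h1

theorem asy {u v : ℕ} (h1 : x.1 u v = true) (h2 : x.1 v u = true) : False := by
  have h3 := h.tr _ _ _ h1 h2
  rw [h.irr] at h3
  exact Bool.false_ne_true h3

theorem ne_of {u v : ℕ} (h1 : x.1 u v = true) : u ≠ v := by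
  rintro rfl
  rw [h.irr] at h1
  exact Bool.false_ne_true h1

theorem cmp {u v : ℕ} (hc : ch x u v) (hne : u ≠ v) : x.1 u v = true ∨ x.1 v u = true :=
  (h.chain u v hc.1 hc.2.1 hne).1 hc

theorem an_iff {γ : Γ} {u a b : ℕ} (ha : ch x u a) (hb : ch x u b) (hab : x.1 a b = true) :
    an x γ u ↔ x.1 (x.2.1 γ b) (x.2.1 γ a) = true := by
  constructor
  · rintro ⟨v, w, h1, h2, h3, h4⟩
    rcases h.mono γ u ha.1 with hm | hm
    · exact (asy h (hm v w h1 h2 h3) h4).elim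
    · exact hm a b ha hb hab
  · intro h1
    exact ⟨a, b, ha, hb, hab, h1⟩

theorem an_not {γ : Γ} {u a b : ℕ} (ha : ch x u a) (hb : ch x u b) (hab : x.1 a b = true)
    (hn : ¬ an x γ u) : x.1 (x.2.1 γ a) (x.2.1 γ b) = true := by
  have h1 := h.chact γ a b (ch_trans (ch_symm ha) hb)
  rcases cmp h h1 (fun e => ne_of h hab (inj h e)) with h2 | h2
  · exact h2
  · exact absurd ((an_iff h ha hb hab).2 h2) hn

theorem tp_act (γ : Γ) {u : ℕ} (ht : tp x u) : tp x (x.2.1 γ u) := by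
  obtain ⟨a, b, ha, hb, hab⟩ := ht
  by_cases hn : an x γ u
  · exact ⟨_, _, h.chact γ _ _ hb, h.chact γ _ _ ha, (an_iff h ha hb hab).1 hn⟩
  · exact ⟨_, _, h.chact γ _ _ ha, h.chact γ _ _ hb, an_not h ha hb hab hn⟩

theorem an_mul {ζ γ : Γ} {u : ℕ} (ht : tp x u) :
    an x (ζ * γ) u ↔ ¬ (an x ζ (x.2.1 γ u) ↔ an x γ u) := by
  obtain ⟨a, b, ha, hb, hab⟩ := ht
  have hca := h.chact γ _ _ ha
  have hcb := h.chact γ _ _ hb
  by_cases hn : an x γ u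
  · have h1 := (an_iff h ha hb hab).1 hn
    by_cases hz : an x ζ (x.2.1 γ u)
    · have h2 := (an_iff h hcb hca h1).1 hz
      have h5 : ¬ an x (ζ * γ) u := by
        intro h3
        have h4 := (an_iff h ha hb hab).1 h3
        rw [h.mul, h.mul] at h4
        exact asy h h2 h4
      tauto
    · have h2 := an_not h hcb hca h1 hz
      have h5 : an x (ζ * γ) u := (an_iff h ha hb hab).2 (by rw [h.mul, h.mul]; exact h2)
      tauto
  · have h1 := an_not h ha hb hab hn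
    by_cases hz : an x ζ (x.2.1 γ u)
    · have h2 := (an_iff h hca hcb h1).1 hz
      have h5 : an x (ζ * γ) u := (an_iff h ha hb hab).2 (by rw [h.mul, h.mul]; exact h2)
      tauto
    · have h2 := an_not h hca hcb h1 hz
      have h5 : ¬ an x (ζ * γ) u := by
        intro h3
        have h4 := (an_iff h ha hb hab).1 h3
        rw [h.mul, h.mul] at h4
        exact asy h h2 h4
      tauto

theorem an_one {u : ℕ} : ¬ an x 1 u := by
  rintro ⟨a, b, ha, hb, hab, h1⟩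
  rw [h.one, h.one] at h1
  exact asy h hab h1

theorem an_inv {γ : Γ} {u : ℕ} (ht : tp x u) : an x γ⁻¹ (x.2.1 γ u) ↔ an x γ u := by
  have h1 := an_mul h (ζ := γ⁻¹) (γ := γ) ht
  rw [inv_mul_cancel] at h1
  have h2 := an_one h (u := u)
  tauto

/-! ### Labels -/

theorem lb_act (ζ : Γ) (u : ℕ) : Lb x (x.2.1 ζ u) = ta ζ (Lb x u) := by
  funext p
  obtain ⟨γ, δ⟩ := p
  have e : δ * ζ * (γ * ζ)⁻¹ = δ * γ⁻¹ := by group
  have e1 : ta ζ (Lb x u) (γ, δ) = Lb x u (γ * ζ, δ * ζ) := rfl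
  rw [e1]
  refine Prod.ext ?_ (Prod.ext ?_ ?_)
  · funext i
    show x.2.2 (2 * i + 1) (x.2.1 γ (x.2.1 ζ u)) = x.2.2 (2 * i + 1) (x.2.1 (γ * ζ) u)
    rw [h.mul]
  · show cd x (δ * γ⁻¹) (x.2.1 γ (x.2.1 ζ u)) (x.2.1 δ (x.2.1 ζ u)) =
      cd x (δ * ζ * (γ * ζ)⁻¹) (x.2.1 (γ * ζ) u) (x.2.1 (δ * ζ) u)
    rw [e, h.mul, h.mul]
  · rw [Bool.eq_iff_iff, lb_3, lb_3, e, h.mul]

theorem lb_1 (u i : ℕ) : (Lb x u (1, 1)).1 i = x.2.2 (2 * i + 1) u := by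
  show x.2.2 (2 * i + 1) (x.2.1 1 u) = _
  rw [h.one]

theorem lb_an {u : ℕ} {γ : Γ} : (Lb x u (1, γ)).2.2 = true ↔ an x γ u := by
  rw [lb_3, inv_one, mul_one, h.one]

theorem lb_cd (u : ℕ) (γ : Γ) : (Lb x u (1, γ)).2.1 = cd x γ u (x.2.1 γ u) := by
  show cd x (γ * 1⁻¹) (x.2.1 1 u) (x.2.1 γ u) = _
  simp only [inv_one, mul_one, h.one]

theorem lb_c (u : ℕ) (γ δ : Γ) : (Lb x u (γ, δ)).2.1 =
    cd x (δ * γ⁻¹) (x.2.1 γ u) (x.2.1 (δ * γ⁻¹) (x.2.1 γ u)) := by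
  show cd x (δ * γ⁻¹) (x.2.1 γ u) (x.2.1 δ u) = _
  rw [← h.mul (δ * γ⁻¹), inv_mul_cancel_right]

theorem eq_an {u v : ℕ} (e : Lb x u = Lb x v) (γ : Γ) : an x γ u ↔ an x γ v := by
  rw [← lb_an h, ← lb_an h, e]

theorem eq_ch {u v : ℕ} (hu : K0 x u) (hv : K0 x v) (e : Lb x u = Lb x v) : ch x u v :=
  ⟨hu, hv, fun i => by rw [← lb_1 h u i, ← lb_1 h v i, e]⟩

theorem eq_act {u v : ℕ} (e : Lb x u = Lb x v) (γ : Γ) :
    Lb x (x.2.1 γ u) = Lb x (x.2.1 γ v) := by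
  rw [lb_act h, lb_act h, e]

theorem cd_2 {η : Γ} {a : ℕ} (h1 : an x η a) : cd x η a a = 2 := by
  unfold cd
  rw [if_pos ⟨h1, ch_refl (an_core h1)⟩, if_neg (by rw [h.irr]; simp), if_pos rfl]

theorem cd_3 {η : Γ} {a b : ℕ} (h1 : an x η a) (h2 : ch x a b) (h3 : x.1 b a = true) :
    cd x η a b = 3 := by
  unfold cd
  rw [if_pos ⟨h1, h2⟩, if_neg (fun h4 => asy h h3 h4), if_neg (ne_of h h3).symm]

theorem fix_of {u : ℕ} {η : Γ} (hn : an x η u) (e : Lb x u = Lb x (x.2.1 η u)) :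
    x.2.1 η u = u := by
  have hu := an_core hn
  have hc := eq_ch h hu (h.core η u hu) e
  by_contra hne
  have hc2 : ch x (x.2.1 η u) (x.2.1 η (x.2.1 η u)) := h.chact η _ _ hc
  have hn2 : an x η (x.2.1 η u) := (eq_an h e η).1 hn
  have e2 : cd x η u (x.2.1 η u) = cd x η (x.2.1 η u) (x.2.1 η (x.2.1 η u)) := by
    rw [← lb_cd h, ← lb_cd h, e]
  rcases cmp h hc (fun k => hne k.symm) with h1 | h1
  · have h2 := (an_iff h (ch_refl hu) hc h1).1 hn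
    rw [cd_1 hn hc h1, cd_3 h hn2 hc2 h2] at e2
    omega
  · have h2 := (an_iff h hc (ch_refl hu) h1).1 hn
    rw [cd_3 h hn hc h1, cd_1 hn2 hc2 h2] at e2
    omega

theorem fix_uniq {u v : ℕ} {η : Γ} (hn : an x η u) (hf : x.2.1 η u = u) (hv : K0 x v)
    (e : Lb x u = Lb x v) : u = v := by
  have hc := eq_ch h (an_core hn) hv e
  have e2 : cd x η v (x.2.1 η v) = 2 := by
    rw [← lb_cd h, ← e, lb_cd h, hf]
    exact cd_2 h hn
  have h3 := (cd_eq2 e2).2.2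
  by_contra hne
  rcases cmp h hc hne with h1 | h1
  · have h2 := (an_iff h (ch_refl hc.1) hc h1).1 hn
    rw [hf, ← h3] at h2
    exact asy h h1 h2
  · have h2 := (an_iff h hc (ch_refl hc.1) h1).1 hn
    rw [hf, ← h3] at h2
    exact asy h h1 h2

theorem bad_uniq {u v : ℕ} (hb : bad (Lb x u)) (hv : K0 x v) (e : Lb x u = Lb x v) : u = v := by
  obtain ⟨η, h1⟩ := hb
  rw [lb_cd h] at h1
  obtain ⟨h2, -, h3⟩ := cd_eq2 h1
  exact fix_uniq h h2 h3.symm hv e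

theorem cd_mono {a b : ℕ} {η : Γ} (hab : ch x a b) (h1 : x.1 a b = true) :
    cd x η a (x.2.1 η a) ≤ cd x η b (x.2.1 η b) := by
  by_cases hn : an x η a
  · have hn' := (an_congr hab).1 hn
    have hc := h.chact η _ _ hab
    have h2 := (an_iff h (ch_refl hab.1) hab h1).1 hn
    by_cases hc' : ch x a (x.2.1 η a)
    · have hc'' : ch x b (x.2.1 η b) := ch_trans (ch_symm hab) (ch_trans hc' hc)
      by_cases e : a = x.2.1 η a
      · have h3 : x.1 (x.2.1 η b) b = true := by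
          rw [← e] at h2
          exact h.tr _ _ _ h2 h1
        rw [cd_3 h hn' hc'' h3]
        exact cd_le
      · rcases cmp h hc' e with h3 | h3
        · rw [cd_1 hn hc' h3]
          exact cd_pos hn' hc''
        · have h4 : x.1 (x.2.1 η b) b = true := h.tr _ _ _ h2 (h.tr _ _ _ h3 h1)
          rw [cd_3 h hn' hc'' h4]
          exact cd_le
    · rw [cd_0 (fun k => hc' k.2)]
      exact Nat.zero_le _
  · rw [cd_0 (fun k => hn k.1)]
    exact Nat.zero_le _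

theorem rl_of {u v : ℕ} (hc : ch x u v) (h1 : x.1 u v = true) (hne : Lb x u ≠ Lb x v) :
    RL (Lb x u) (Lb x v) := by
  refine ⟨hne, fun γ δ => ⟨fun h2 => ?_, fun h2 => ?_⟩⟩
  · rw [lb_an h] at h2
    rw [lb_c h, lb_c h]
    exact cd_mono h (h.chact γ _ _ (ch_symm hc)) ((an_iff h (ch_refl hc.1) hc h1).1 h2)
  · have h2' : ¬ an x γ u := by
      rw [← lb_an h, h2]
      exact Bool.false_ne_true
    rw [lb_c h, lb_c h]
    exact cd_mono h (h.chact γ _ _ hc) (an_not h (ch_refl hc.1) hc h1 h2')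

theorem rl_iff {u v : ℕ} (hc : ch x u v) (hne : Lb x u ≠ Lb x v) :
    RL (Lb x u) (Lb x v) ↔ x.1 u v = true := by
  refine ⟨fun h1 => ?_, fun h1 => rl_of h hc h1 hne⟩
  have huv : u ≠ v := by
    rintro rfl
    exact hne rfl
  rcases cmp h hc huv with h2 | h2
  · exact h2
  exfalso
  have h3 := rl_of h (ch_symm hc) h2 hne.symm
  apply hne
  funext p
  obtain ⟨γ, δ⟩ := p
  have hcγ := h.chact γ _ _ hc
  refine Prod.ext ?_ (Prod.ext ?_ ?_)
  · funext i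
    exact hcγ.2.2 i
  · by_cases hn : an x γ u
    · have k1 := (h1.2 γ δ).1 ((lb_an h).2 hn)
      have k2 := (h3.2 γ δ).1 ((lb_an h).2 ((an_congr hc).1 hn))
      exact le_antisymm k2 k1
    · have hn' : ¬ an x γ v := fun k => hn ((an_congr hc).2 k)
      have k1 := (h1.2 γ δ).2 (Bool.eq_false_iff.2 fun k => hn ((lb_an h).1 k))
      have k2 := (h3.2 γ δ).2 (Bool.eq_false_iff.2 fun k => hn' ((lb_an h).1 k))
      exact le_antisymm k1 k2
  · rw [Bool.eq_iff_iff, lb_3, lb_3]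
    exact an_congr hcγ

/-! ### Orientation -/

theorem rep_act (ζ : Γ) (u : ℕ) : rep (Lb x (x.2.1 ζ u)) = rep (Lb x u) := by
  rw [lb_act h, rep_ta]

theorem rep_pt (u : ℕ) : ∃ ε : Γ, rep (Lb x u) = Lb x (x.2.1 ε u) := by
  obtain ⟨ε, hε⟩ := rep_mem (Lb x u)
  exact ⟨ε, by rw [hε, lb_act h]⟩

theorem ori_iff {w p : ℕ} (hr : rep (Lb x w) = Lb x p) :
    ori (Lb x w) ↔ ∃ δ : Γ, Lb x w = Lb x (x.2.1 δ p) ∧ ¬ an x δ p := by
  unfold ori
  rw [hr]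
  refine exists_congr fun δ => and_congr ?_ ?_
  · rw [lb_act h]
  · rw [← lb_an h, Bool.not_eq_true]

theorem ori_mono1 {u : ℕ} {ζ : Γ} (ht : tp x u) (hn : ¬ an x ζ u) (ho : ori (Lb x u)) :
    ori (Lb x (x.2.1 ζ u)) := by
  obtain ⟨ε, hr⟩ := rep_pt h u
  have hp : tp x (x.2.1 ε u) := tp_act h ε ht
  rw [ori_iff h hr] at ho
  obtain ⟨δ, h1, h2⟩ := ho
  rw [ori_iff h ((rep_act h ζ u).trans hr)]
  refine ⟨ζ * δ, ?_, ?_⟩
  · rw [h.mul]
    exact eq_act h h1 ζ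
  · rw [an_mul h hp]
    have h3 := eq_an h h1 ζ
    tauto

theorem ori_mono {u : ℕ} {ζ : Γ} (ht : tp x u) (hn : ¬ an x ζ u) :
    ori (Lb x (x.2.1 ζ u)) ↔ ori (Lb x u) := by
  refine ⟨fun ho => ?_, ori_mono1 h ht hn⟩
  have h1 := ori_mono1 h (u := x.2.1 ζ u) (ζ := ζ⁻¹) (tp_act h ζ ht)
    (by rw [an_inv h ht]; exact hn) ho
  rwa [ii h] at h1

theorem ori_anti {u : ℕ} {ζ : Γ} (ht : tp x u) (hb : ¬ bad (Lb x u)) (hn : an x ζ u) :
    ori (Lb x (x.2.1 ζ u)) ↔ ¬ ori (Lb x u) := by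
  obtain ⟨ε, hr⟩ := rep_pt h u
  have hp : tp x (x.2.1 ε u) := tp_act h ε ht
  rw [ori_iff h ((rep_act h ζ u).trans hr), ori_iff h hr]
  constructor
  · rintro ⟨δ', h1, h2⟩ ⟨δ, h3, h4⟩
    apply hb
    obtain ⟨η, hη⟩ : ∃ η : Γ, η * δ = δ' := ⟨δ' * δ⁻¹, inv_mul_cancel_right _ _⟩
    have e1 : x.2.1 η (x.2.1 δ (x.2.1 ε u)) = x.2.1 δ' (x.2.1 ε u) := by
      rw [← h.mul η δ, hη]
    have e2 : Lb x (x.2.1 η u) = Lb x (x.2.1 ζ u) := by
      rw [eq_act h h3 η, e1, ← h1]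
    have n1 : ¬ an x η (x.2.1 δ (x.2.1 ε u)) := by
      have h5 := an_mul h (ζ := η) (γ := δ) hp
      rw [hη] at h5
      tauto
    have n2 : ¬ an x η u := by
      rw [eq_an h h3 η]
      exact n1
    have n3 : ¬ an x η⁻¹ (x.2.1 ζ u) := by
      rw [← eq_an h e2 η⁻¹, an_inv h ht]
      exact n2
    have n4 : an x (η⁻¹ * ζ) u := by
      rw [an_mul h ht]
      tauto
    have e3 : Lb x u = Lb x (x.2.1 (η⁻¹ * ζ) u) := by
      rw [h.mul, ← eq_act h e2 η⁻¹, ii h]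
    have e4 := fix_of h n4 e3
    refine ⟨η⁻¹ * ζ, ?_⟩
    rw [lb_cd h, e4]
    exact cd_2 h n4
  · intro h1
    have k : an x ε⁻¹ (x.2.1 ε u) := by
      by_contra k
      exact h1 ⟨ε⁻¹, by rw [ii h], k⟩
    refine ⟨ζ * ε⁻¹, by rw [h.mul, ii h], ?_⟩
    rw [an_mul h hp, ii h]
    tauto

end lc

end act

end Pool.Agent.Y815.TH
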